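import Pool.Agent.V11331.SA.Sph

set_option autoImplicit false

/-!
# MP_d3a052_pr: asymptotics of the moments of random solid angles
-/

open MeasureTheory Filter Topology

namespace Pool.Agent.Results.MP_d3a052_pr.MomentAsymptotics

/-- The uniform distribution on the unit sphere `S^{d-1}` of `ℝ^d` (normalised surface measure). -/
noncomputable def unif (d : ℕ) : Measure (Metric.sphere (0 : EuclideanSpace ℝ (Fin d)) 1) :=
  ((volume : Measure (EuclideanSpace ℝ (Fin d))).toSphere Set.univ)⁻¹ •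
    (volume : Measure (EuclideanSpace ℝ (Fin d))).toSphere

/-- The positive hull `pos(x_1,…,x_n)`. -/
def posHull {d n : ℕ} (x : Fin n → EuclideanSpace ℝ (Fin d)) : Set (EuclideanSpace ℝ (Fin d)) :=
  {y | ∃ lam : Fin n → ℝ, (∀ i, 0 ≤ lam i) ∧ y = ∑ i, lam i • x i}

/-- The normalised solid angle of a cone `C ⊆ ℝ^d`. -/
noncomputable def solidAngle {d : ℕ} (C : Set (EuclideanSpace ℝ (Fin d))) : ℝ :=
  (unif d).real {u | (u : EuclideanSpace ℝ (Fin d)) ∈ C}

/-- `α_d` as a function of the points `U_1,…,U_d` of the sphere. -/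
noncomputable def alpha (d : ℕ)
    (u : Fin d → Metric.sphere (0 : EuclideanSpace ℝ (Fin d)) 1) : ℝ :=
  solidAngle (posHull fun i => (u i : EuclideanSpace ℝ (Fin d)))

/-- The joint law of the independent uniform points `U_1,…,U_d`. -/
noncomputable def joint (d : ℕ) :
    Measure (Fin d → Metric.sphere (0 : EuclideanSpace ℝ (Fin d)) 1) :=
  Measure.pi fun _ : Fin d => unif d

/-- The moment `m(d,k) = E[α_d^k]`. -/
noncomputable def m (d k : ℕ) : ℝ := ∫ u, alpha d u ^ k ∂(joint d)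

/-- For every fixed `k ≥ 2` there is `c_k > 0` with `m(d,k) ∼ c_k / (2^d d)` as `d → ∞`. -/
theorem result :
    (∀ d : ℕ, 1 ≤ d → IsProbabilityMeasure (unif d) ∧ AEMeasurable (alpha d) (joint d)) ∧
    ∀ k : ℕ, 2 ≤ k → ∃ c : ℝ, 0 < c ∧
      Tendsto (fun d : ℕ => m d k / (c / (2 ^ d * d))) atTop (𝓝 1) := by
  refine ⟨fun d hd => ⟨?_, ?_⟩, ?_⟩
  · exact Pool.Agent.V11331.SA.unif_prob d hd
  · exact Pool.Agent.V11331.SA.alpha_aem hd
  · intro k hk
    obtain ⟨j, rfl⟩ : ∃ j, k = j + 1 + 1 := ⟨k - 2, by omega⟩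
    obtain ⟨c, hc, hc2⟩ := Pool.Agent.V11331.SA.mom_lim (j + 1)
    refine ⟨c, hc, ?_⟩
    have h1 := hc2.div_const c
    rw [div_self hc.ne'] at h1
    refine h1.congr' ?_
    filter_upwards [eventually_gt_atTop 0] with d hd
    have hd' : (0 : ℝ) < d := by exact_mod_cast hd
    have h2 : m d (j + 1 + 1) = (Pool.Agent.V11331.SA.mom (Fin (j + 1 + 1)) d).toReal := by
      rw [Pool.Agent.V11331.SA.mom_sym', ← Pool.Agent.V11331.SA.law_mom hd,
        Pool.Agent.V11331.SA.law, integral_map (Pool.Agent.V11331.SA.alpha_aem hd) (by fun_prop)]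
      rfl
    rw [h2]
    field_simp

end Pool.Agent.Results.MP_d3a052_pr.MomentAsymptotics
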